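import Pool.Agent.H84.NT.Targets3

/-!
# MP_57ddd5_pr: module O2C (bounds for the cut environment)
-/

open MeasureTheory ProbabilityTheory
open scoped ENNReal

namespace Pool.Agent.H47.NT.O2C

open Pool.Agent.H99.NS Pool.Agent.H22.LPP Pool.Agent.H95.INS Pool.Agent.H84.NT

theorem sgp {q : ℝ} (h0 : 0 < q) (h1 : q < 1) : 0 < sg q := by
  unfold sg
  have := Real.sqrt_pos.2 h0
  exact div_pos this (by linarith)

theorem cutS_le (D : Dat) (ω : Env) (z : Site) : cutS D ω z ≤ ω z := by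
  unfold cutS
  split_ifs
  · exact Nat.zero_le _
  · exact le_rfl

theorem wt_cutS_le (D : Dat) (ω : Env) (s t : ℤ) (g : ℤ → ℤ) :
    wt (cutS D ω) s t g ≤ wt ω s t g := by
  unfold wt
  exact Finset.sum_le_sum fun r _ => by exact_mod_cast cutS_le D ω _

theorem wt_cutS_eq (D : Dat) (ω : Env) (s t : ℤ) (g : ℤ → ℤ)
    (h : ∀ r, s < r → r ≤ t → |g r| < 2 * D.X) : wt (cutS D ω) s t g = wt ω s t g := by
  apply wt_congr
  intro r h1 h2
  unfold cutS
  rw [if_neg]
  rintro ⟨-, -, h3⟩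
  have := h r h1 h2
  simp only at h3
  omega

/-- Titu. -/
theorem titu {a b x y : ℝ} (hx : 0 < x) (hy : 0 < y) :
    (a + b) ^ 2 / (x + y) ≤ a ^ 2 / x + b ^ 2 / y := by
  rw [div_add_div _ _ hx.ne' hy.ne', div_le_div_iff₀ (by positivity) (by positivity)]
  nlinarith [sq_nonneg (a * y - b * x), mul_pos hx hy]

/-- The real inequality. -/
theorem real_key {sgq K A H Y X w f N tau d P : ℝ} (hs : 0 < sgq) (hK : 0 ≤ K) (hA : 2 ≤ A)
    (hf : 0 < f) (hw : 0 < w) (hN : 0 < N) (hsc : w ^ 2 = N * f)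
    (c2 : K * (1 + 16 * A) ≤ H / 1000) (c3 : H ≤ Y) (c4 : 4 * Y ≤ sgq * A ^ 2)
    (hX : 16 * A * w ≤ X) (ht : N ≤ tau) (ht2 : tau ≤ 65 / 2 * N) (hd0 : 0 ≤ d)
    (hd : d ≤ 2 * X) (hP : 2 * X + d ≤ P)
    (h : sgq / 2 * (P ^ 2 / (tau + N / 50)) - sgq / 2 * (d ^ 2 / tau) ≤
      3 * K * f * (1 + 2 * X / w)) : False := by
  have hX0 : 0 < X := by nlinarith only [hw, hX, hA]
  have htau : 0 < tau := by linarith
  obtain ⟨xi, hxi⟩ : ∃ xi : ℝ, xi = X / w := ⟨_, rfl⟩
  have hXw : X = xi * w := by rw [hxi]; field_simp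
  have hxiA : 16 * A ≤ xi := by
    rw [hxi, le_div_iff₀ hw]
    linarith
  have hxi0 : 0 < xi := by linarith
  -- the left hand side
  have h1 : (2 * X + d) ^ 2 ≤ P ^ 2 := by
    have : 0 ≤ 2 * X + d := by linarith
    nlinarith only [hd0, hP, hd]
  have h2 : P ^ 2 / (51 / 50 * tau) ≤ P ^ 2 / (tau + N / 50) := by
    apply div_le_div_of_nonneg_left (sq_nonneg P) (by positivity)
    linarith
  have h3 : 4 * X ^ 2 / (51 / 50 * tau) ≤ P ^ 2 / (51 / 50 * tau) - d ^ 2 / tau := by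
    have e : d ^ 2 / tau = (51 / 50 * d ^ 2) / (51 / 50 * tau) := by
      field_simp
    rw [e, ← sub_div]
    apply div_le_div_of_nonneg_right _ (by positivity)
    nlinarith only [mul_nonneg hd0 hX0.le, mul_nonneg hd0 (sub_nonneg.2 hd), h1, hd0, hX0, hd]
  have h4 : 4 * X ^ 2 / (51 / 50 * (65 / 2 * N)) ≤ 4 * X ^ 2 / (51 / 50 * tau) := by
    apply div_le_div_of_nonneg_left (by positivity) (by positivity)
    linarith
  have h5 : 4 * X ^ 2 / (51 / 50 * (65 / 2 * N)) = 4 / (51 / 50 * (65 / 2)) * (xi ^ 2 * f) := by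
    rw [hXw]
    have : (xi * w) ^ 2 = xi ^ 2 * (N * f) := by rw [mul_pow, hsc]
    rw [this]
    field_simp
  have h6 : sgq / 2 * (4 / (51 / 50 * (65 / 2)) * (xi ^ 2 * f)) ≤ 3 * K * f * (1 + 2 * xi) := by
    have e : 2 * X / w = 2 * xi := by rw [hxi]; ring
    rw [e] at h
    have h7 : 4 / (51 / 50 * (65 / 2)) * (xi ^ 2 * f) ≤ P ^ 2 / (tau + N / 50) - d ^ 2 / tau := by
      rw [← h5]
      linarith
    have := mul_le_mul_of_nonneg_left h7 (by linarith : (0:ℝ) ≤ sgq / 2)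
    linarith only [h, this]
  have h7 : sgq / 2 * (4 / (51 / 50 * (65 / 2))) * xi ^ 2 ≤ 3 * K * (1 + 2 * xi) := by
    have : (sgq / 2 * (4 / (51 / 50 * (65 / 2))) * xi ^ 2) * f ≤ (3 * K * (1 + 2 * xi)) * f := by
      linarith
    exact le_of_mul_le_mul_right this hf
  have h8 : K * (16 * A) ≤ sgq * A ^ 2 / 4000 := by nlinarith only [hK, c2, c3, c4]
  have h9 : K ≤ sgq * A / 64000 := by
    have : K * (16 * A) ≤ (sgq * A / 64000) * (16 * A) := by nlinarith only [hK, c2, c3, c4]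
    exact le_of_mul_le_mul_right this (by linarith)
  have h10 : 3 * K * (1 + 2 * xi) ≤ 3 * (sgq * A / 64000) * (1 + 2 * xi) := by
    have : 0 ≤ 1 + 2 * xi := by linarith
    nlinarith only [hs, c2, c3, c4, hA, hK, hxiA, h9]
  have h11 : 3 * (sgq * A / 64000) * (1 + 2 * xi) ≤ 3 * (sgq * xi / 64000) * (3 * xi) := by
    have h12 : sgq * A / 64000 ≤ sgq * xi / 64000 := by
      have : sgq * A ≤ sgq * xi := mul_le_mul_of_nonneg_left (by linarith) hs.le
      linarith
    have h13 : 0 ≤ sgq * xi / 64000 := by positivity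
    have h14 : 1 + 2 * xi ≤ 3 * xi := by linarith only [hA, hxiA]
    have h15 : 0 ≤ 1 + 2 * xi := by linarith
    nlinarith only [mul_le_mul h12 h14 h15 h13, h12, h14, h15, h13]
  have h16 : 0 < sgq * xi ^ 2 := by positivity
  norm_num at h7 h10 h11
  nlinarith only [h10, h11, h16, h7]

theorem lbd (D : Dat) (ω : Env) (hD : D.Ok) (h1 : O1X D ω) {s t : ℤ}
    (hs : -(256 * D.n) ≤ s) (ht : t ≤ 256 * D.n) (h8 : 8 * D.n ≤ t - s)
    (h260 : t - s ≤ 260 * D.n) (hl : LBd D ω s t) : LBd D (cutS D ω) s t := by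
  intro x y hx hy hr
  have hw0 : (0 : ℝ) < D.w := by exact_mod_cast (by have := hD.w1; omega : (0 : ℤ) < D.w)
  have hn0 : (0 : ℝ) < D.n := by exact_mod_cast (by have := hD.n1; omega : (0 : ℤ) < D.n)
  have hn1 := hD.n1
  have hXpos : 0 < D.X := by
    have := hD.X1
    have h2 := hD.A2
    have h3 := hD.w1
    nlinarith
  have hlow := hl x y hx hy hr
  obtain ⟨g, hg, hgT, -⟩ := T_attained ω hr
  simp only at hgT
  have hst : s ≤ t := by omega
  by_cases hc : ∀ r, s < r → r ≤ t → |g r| < 2 * D.X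
  · have h2 := le_T (cutS D ω) (u := (s, x)) (v := (t, y)) hst hg
    simp only at h2
    rw [wt_cutS_eq D ω s t g hc, ← hgT] at h2
    linarith
  · exfalso
    push Not at hc
    obtain ⟨r₀, hr1, hr2, hr3⟩ := hc
    -- the first time at distance `2 X`
    obtain ⟨hgp, hgs, hgt⟩ := hg
    simp only at hgp hgs hgt
    have hex : ∃ m : ℕ, s + m ≤ t ∧ 2 * D.X ≤ |g (s + m)| := by
      refine ⟨(r₀ - s).toNat, ?_, ?_⟩
      · have : ((r₀ - s).toNat : ℤ) = r₀ - s := Int.toNat_of_nonneg (by omega)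
        omega
      · have : ((r₀ - s).toNat : ℤ) = r₀ - s := Int.toNat_of_nonneg (by omega)
        rw [this]
        have : s + (r₀ - s) = r₀ := by ring
        rw [this]
        exact hr3
    classical
    obtain ⟨hm1, hm2⟩ := Nat.find_spec hex
    have hmin : ∀ k : ℕ, k < Nat.find hex → ¬ (s + k ≤ t ∧ 2 * D.X ≤ |g (s + k)|) :=
      fun k hk => Nat.find_min hex hk
    obtain ⟨m, hm⟩ : ∃ m, m = Nat.find hex := ⟨_, rfl⟩
    rw [← hm] at hm1 hm2 hmin
    have hm0 : m ≠ 0 := by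
      intro h0
      rw [h0] at hm2
      simp only [Nat.cast_zero, add_zero] at hm2
      rw [hgs] at hm2
      omega
    obtain ⟨k, rfl⟩ := Nat.exists_eq_succ_of_ne_zero hm0
    have hk := hmin k (Nat.lt_succ_self k)
    push_cast at hm1 hm2
    have hk2 : |g (s + k)| < 2 * D.X := by
      by_contra hcon
      exact hk ⟨by omega, by omega⟩
    have hstep := hgp (s + k) (by omega) (by omega)
    have e : s + k + 1 = s + (k + 1) := by ring
    rw [e] at hstep
    obtain ⟨r, hr⟩ : ∃ r : ℤ, r = s + (k + 1) := ⟨_, rfl⟩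
    rw [← hr] at hm1 hm2 hstep
    have habs : |g r| = 2 * D.X := by
      have h3 := abs_lt.1 hk2
      rcases le_abs.1 hm2 with h4 | h4
      · rw [abs_of_nonneg (by omega)]
        rcases hstep with h5 | h5 <;> omega
      · rw [abs_of_nonpos (by omega)]
        rcases hstep with h5 | h5 <;> omega
    have hsr : s ≤ r := by omega
    -- upper bounds for the two pieces
    have hp1 : IsPath s r g := fun a ha hb => hgp a ha (by omega)
    have hp2 : IsPath r t g := fun a ha hb => hgp a (by omega) hb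
    have u1 := h1 s r g hs hsr (by omega) hp1
    have u2 := h1 r t g (by omega) hm1 ht hp2
    have hadd := wt_add ω hsr hm1 g
    -- real versions
    have hxr : |(x : ℝ)| ≤ D.X := by exact_mod_cast hx
    have hyr : |(y : ℝ)| ≤ D.X := by exact_mod_cast hy
    have hzr : |(g r : ℝ)| = 2 * D.X := by exact_mod_cast habs
    have hX0 : (0 : ℝ) < D.X := by exact_mod_cast hXpos
    have hm1' : max |(g s : ℝ)| |(g r : ℝ)| = 2 * D.X := by
      rw [hgs, hzr]
      exact max_eq_right (by linarith)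
    have hm2' : max |(g r : ℝ)| |(g t : ℝ)| = 2 * D.X := by
      rw [hgt, hzr]
      exact max_eq_left (by linarith)
    rw [hm1'] at u1
    rw [hm2'] at u2
    have hm3 : max |(x : ℝ)| |(y : ℝ)| ≤ D.X := max_le hxr hyr
    have hf := hD.f0
    have hK := hD.K0
    have hs0 := sgp hD.q0 hD.q1
    have hKf : 0 ≤ D.K * D.f := mul_nonneg hK hf.le
    have hlow2 : par D.q (s, x) (t, y) - D.K * D.f * (1 + D.X / D.w) ≤ T ω (s, x) (t, y) := by
      refine le_trans ?_ hlow
      have : max |(x : ℝ)| |(y : ℝ)| / D.w ≤ D.X / D.w := div_le_div_of_nonneg_right hm3 hw0.le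
      nlinarith only [hKf, this]
    rw [hgT, hadd] at hlow2
    unfold sp at u1 u2
    unfold par at hlow2
    simp only at hlow2
    rw [hgs] at u1
    rw [hgt] at u2
    push_cast at u1 u2 hlow2
    obtain ⟨p, hp⟩ : ∃ p : ℝ, p = (g r : ℝ) - x := ⟨_, rfl⟩
    obtain ⟨p', hp'⟩ : ∃ p' : ℝ, p' = (g r : ℝ) - y := ⟨_, rfl⟩
    have ht1 : (0 : ℝ) < (r : ℝ) - s + 8 * D.n / 100 := by
      have : (s : ℝ) ≤ r := by exact_mod_cast hsr
      have : (0 : ℝ) < 8 * D.n / 100 := by positivity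
      linarith
    have ht2 : (0 : ℝ) < (t : ℝ) - r + 8 * D.n / 100 := by
      have : (r : ℝ) ≤ t := by exact_mod_cast hm1
      have : (0 : ℝ) < 8 * D.n / 100 := by positivity
      linarith
    have hti := titu (a := p) (b := p') ht1 ht2
    have e2 : (r : ℝ) - s + 8 * D.n / 100 + ((t : ℝ) - r + 8 * D.n / 100) =
        ((t : ℝ) - s) + 8 * D.n / 50 := by ring
    rw [e2] at hti
    have e3 : ((y : ℝ) - g r) ^ 2 = p' ^ 2 := by rw [hp']; ring
    rw [e3] at u2
    rw [← hp] at u1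
    have hkey : sg D.q / 2 * (|p + p'| ^ 2 / (((t : ℝ) - s) + 8 * D.n / 50)) -
        sg D.q / 2 * (|(y : ℝ) - x| ^ 2 / ((t : ℝ) - s)) ≤
        3 * D.K * D.f * (1 + 2 * D.X / D.w) := by
      rw [sq_abs, sq_abs]
      have h5 := mul_le_mul_of_nonneg_left hti (by linarith : (0:ℝ) ≤ sg D.q / 2)
      have e5 : sg D.q / 2 * (p ^ 2 / ((r : ℝ) - s + 8 * D.n / 100) +
          p' ^ 2 / ((t : ℝ) - r + 8 * D.n / 100)) =
          sg D.q / 2 * p ^ 2 / ((r : ℝ) - s + 8 * D.n / 100) +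
          sg D.q / 2 * p' ^ 2 / ((t : ℝ) - r + 8 * D.n / 100) := by ring
      rw [e5] at h5
      have e6 : sg D.q / 2 * ((y : ℝ) - x) ^ 2 / ((t : ℝ) - s) =
          sg D.q / 2 * (((y : ℝ) - x) ^ 2 / ((t : ℝ) - s)) := by ring
      rw [e6] at hlow2
      have h6 : D.K * D.f * (1 + (D.X : ℝ) / D.w) ≤ D.K * D.f * (1 + 2 * D.X / D.w) := by
        apply mul_le_mul_of_nonneg_left _ hKf
        have : (D.X : ℝ) / D.w ≤ 2 * D.X / D.w := div_le_div_of_nonneg_right (by linarith) hw0.le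
        linarith
      linarith only [hlow2, u1, u2, h5, h6]
    have hsc : (D.w : ℝ) ^ 2 = (8 * D.n) * D.f := hD.sc
    have hA : (2 : ℝ) ≤ D.A := by exact_mod_cast hD.A2
    have hX1 : 16 * (D.A : ℝ) * D.w ≤ D.X := by exact_mod_cast hD.X1
    refine real_key hs0 hK hA hf hw0 (by positivity) hsc hD.c2 hD.c3 hD.c4 hX1 ?_ ?_
      (abs_nonneg _) ?_ ?_ hkey
    · have : ((8 * D.n : ℤ) : ℝ) ≤ ((t - s : ℤ) : ℝ) := by exact_mod_cast h8
      push_cast at this
      exact this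
    · have : ((t - s : ℤ) : ℝ) ≤ ((260 * D.n : ℤ) : ℝ) := by exact_mod_cast h260
      push_cast at this
      linarith only [this]
    · have h7 := abs_le.1 hxr
      have h8 := abs_le.1 hyr
      rw [abs_le]
      constructor <;> linarith only [h7, h8]
    · have h7 := abs_le.1 hxr
      have h8 := abs_le.1 hyr
      rw [hp, hp']
      rcases abs_cases (g r : ℝ) with ⟨h9, -⟩ | ⟨h9, -⟩
      · rw [h9] at hzr
        rw [hzr]
        have h10 : 2 * (D.X : ℝ) + |(y : ℝ) - x| ≤ 2 * D.X - x + (2 * D.X - y) := by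
          rcases abs_cases ((y : ℝ) - x) with ⟨h11, -⟩ | ⟨h11, -⟩ <;> rw [h11] <;> linarith only [h8, h7]
        exact h10.trans (le_abs_self _)
      · rw [h9] at hzr
        have hz2 : (g r : ℝ) = -(2 * D.X) := by linarith only [hzr]
        rw [hz2]
        have h10 : 2 * (D.X : ℝ) + |(y : ℝ) - x| ≤ -(-(2 * D.X) - x + (-(2 * (D.X : ℝ)) - y)) := by
          rcases abs_cases ((y : ℝ) - x) with ⟨h11, -⟩ | ⟨h11, -⟩ <;> rw [h11] <;> linarith only [h7, h8]
        exact h10.trans (neg_le_abs _)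

theorem pf_O2C : T_O2C := by
  intro D ω hD h1 h2
  have hn1 := hD.n1
  have hn0 : (0 : ℝ) < D.n := by exact_mod_cast (by omega : (0 : ℤ) < D.n)
  have hs0 := sgp hD.q0 hD.q1
  constructor
  · intro s t g h3 h4 h5 h6 h7 h8
    refine (wt_cutS_le D ω s t g).trans ((h1 s t g h3 h4 h5 h6).trans ?_)
    unfold sp
    have hst : (0 : ℝ) ≤ ((t - s : ℤ) : ℝ) := by exact_mod_cast (by omega : (0 : ℤ) ≤ t - s)
    have : sg D.q / 2 * ((g t - g s : ℤ) : ℝ) ^ 2 / (((t - s : ℤ) : ℝ) + 8 * D.n / 50) ≤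
        sg D.q / 2 * ((g t - g s : ℤ) : ℝ) ^ 2 / (((t - s : ℤ) : ℝ) + 8 * D.n / 100) := by
      apply div_le_div_of_nonneg_left (by positivity) (by positivity)
      linarith
    linarith
  · exact ⟨lbd D ω hD h1 (by omega) (by omega) (by omega) (by omega) h2.a,
      lbd D ω hD h1 (by omega) (by omega) (by omega) (by omega) h2.b,
      lbd D ω hD h1 (by omega) (by omega) (by omega) (by omega) h2.c,
      lbd D ω hD h1 (by omega) (by omega) (by omega) (by omega) h2.d,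
      lbd D ω hD h1 (by omega) (by omega) (by omega) (by omega) h2.e⟩

end Pool.Agent.H47.NT.O2C
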