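import Pool.Agent.H84.NT.Targets3

/-!
# MP_57ddd5_pr: module PEI (few bad blocks along sequences of windows)
-/

open MeasureTheory ProbabilityTheory
open scoped ENNReal

namespace Pool.Agent.H47.NT.PEI

open Pool.Agent.H99.NS Pool.Agent.H22.LPP Pool.Agent.H95.INS Pool.Agent.H84.NT

theorem exp_sq_le (d : ℕ) : Real.exp (-1 * ((d : ℝ) ^ 2)) ≤ (1 / 2 : ℝ) ^ d := by
  have h1 : (2 : ℝ) ≤ Real.exp 1 := by
    have := Real.add_one_le_exp (1 : ℝ)
    linarith
  have h2 : (d : ℝ) ≤ (d : ℝ) ^ 2 := by exact_mod_cast Nat.le_self_pow two_ne_zero d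
  have h3 : Real.exp (-1 * ((d : ℝ) ^ 2)) ≤ Real.exp (-(d : ℝ)) :=
    Real.exp_le_exp.2 (by linarith)
  refine h3.trans ?_
  have h4 : Real.exp (-(d : ℝ)) = (Real.exp 1)⁻¹ ^ d := by
    rw [← Real.exp_neg, ← Real.exp_nat_mul]
    ring_nf
  rw [h4]
  apply pow_le_pow_left₀ (by positivity)
  rw [one_div]
  exact inv_anti₀ (by norm_num) h1

theorem sum_le (m : ℕ) :
    ∑ D ∈ Finset.Icc (-(m : ℤ)) m, Real.exp (-1 * ((D : ℝ) ^ 2)) ≤ 3 - 2 * (1 / 2 : ℝ) ^ m := by
  induction m with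
  | zero => simp; norm_num
  | succ m ih =>
    have e : Finset.Icc (-((m + 1 : ℕ) : ℤ)) ((m + 1 : ℕ) : ℤ) =
        insert ((m + 1 : ℕ) : ℤ) (insert (-((m + 1 : ℕ) : ℤ)) (Finset.Icc (-(m : ℤ)) m)) := by
      ext x
      simp only [Finset.mem_insert, Finset.mem_Icc]
      push_cast
      omega
    rw [e, Finset.sum_insert, Finset.sum_insert]
    · have h1 := exp_sq_le (m + 1)
      have h2 : Real.exp (-1 * ((((-((m + 1 : ℕ) : ℤ)) : ℤ) : ℝ) ^ 2)) ≤ (1 / 2 : ℝ) ^ (m + 1) := by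
        have e2 : ((((-((m + 1 : ℕ) : ℤ)) : ℤ) : ℝ) ^ 2) = (((m + 1 : ℕ) : ℝ)) ^ 2 := by
          push_cast
          ring
        rw [e2]
        exact h1
      have h3 : Real.exp (-1 * (((((m + 1 : ℕ) : ℤ)) : ℝ) ^ 2)) ≤ (1 / 2 : ℝ) ^ (m + 1) := by
        exact_mod_cast h1
      have h4 : (1 / 2 : ℝ) ^ (m + 1) = (1 / 2 : ℝ) ^ m * (1 / 2) := pow_succ _ _
      linarith
    · simp only [Finset.mem_Icc]
      push_cast
      omega
    · simp only [Finset.mem_insert, Finset.mem_Icc]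
      push_cast
      omega

theorem shift_shift (s0 : ℤ) (ω : Env) : shiftE (-s0, 0) (shiftE (s0, 0) ω) = ω := by
  funext z
  unfold shiftE
  congr 1
  ext <;> simp

open Classical in
theorem pf_PEI : T_PEI := by
  intro hGR Cd hCd
  obtain ⟨L, hL⟩ : ∃ L : ℝ, L = 8 * (Cd + Real.log 6 + 1) := ⟨_, rfl⟩
  have hlog : 0 ≤ Real.log 6 := Real.log_nonneg (by norm_num)
  have hLp : 0 < L := by rw [hL]; linarith
  refine ⟨Real.exp (-L), Real.exp_pos _, ?_⟩
  intro q H s0 i0 n Bd hH hmeas hdep hP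
  have hbd' : ∀ l i, PE q {ω | Bd l i ω} ≤ ENNReal.ofReal (Real.exp (-L)) := by
    intro l i
    have := hP l i
    rw [Measure.real] at this
    exact (ENNReal.le_ofReal_iff_toReal_le (measure_ne_top _ _) (Real.exp_pos _).le).2 this
  -- the functional
  let Z : ℕ → ℤ → ℤ → Env → ℝ := fun l _ x ω =>
    if Bd l x (shiftE (-s0, 0) ω) then L else 0
  have hmS : ∀ l x, MeasurableSet {ω | Bd l x (shiftE (-s0, 0) ω)} := fun l x =>
    (mp_shiftE q (-s0, 0)).measurable (hmeas l x)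
  have hPS : ∀ l x, PE q {ω | Bd l x (shiftE (-s0, 0) ω)} ≤ ENNReal.ofReal (Real.exp (-L)) := by
    intro l x
    have h1 : {ω | Bd l x (shiftE (-s0, 0) ω)} = shiftE (-s0, 0) ⁻¹' {ω | Bd l x ω} := rfl
    rw [h1, (mp_shiftE q (-s0, 0)).measure_preimage (hmeas l x).nullMeasurableSet]
    exact hbd' l x
  have key := hGR q H (⌈Cd * n⌉₊) Z (fun D => (D : ℝ) ^ 2) 1 2 3 hH one_pos (by norm_num)
    (by norm_num) ?_ ?_ ?_ ?_ n i0
  · -- conclusion
    refine le_trans ?_ key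
    have hsub : {ω | ∃ x : ℕ → ℤ, x 0 = i0 ∧
        ∑ l ∈ Finset.range n, ((x (l + 1) - x l : ℤ) : ℝ) ^ 2 ≤ Cd * n ∧
        (n : ℝ) ≤ 8 * (((Finset.range n).filter (fun l => Bd l (x l) ω)).card : ℝ) ∧ 1 ≤ n} ⊆
        shiftE (s0, 0) ⁻¹' {ω | ∃ x : ℕ → ℤ, x 0 = i0 ∧
          (∀ l < n, |x (l + 1) - x l| ≤ (⌈Cd * n⌉₊ : ℤ)) ∧
          (Real.log (2 * 3) + 1) / 1 * n ≤
            ∑ l ∈ Finset.range n, (Z l (x (l + 1) - x l) (x l) ω -
              ((x (l + 1) - x l : ℤ) : ℝ) ^ 2)} := by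
      rintro ω ⟨x, hx0, hx1, hx2, -⟩
      refine ⟨x, hx0, ?_, ?_⟩
      · intro l hl
        have h1 : ((x (l + 1) - x l : ℤ) : ℝ) ^ 2 ≤ Cd * n :=
          (Finset.single_le_sum (f := fun l : ℕ => ((x (l + 1) - x l : ℤ) : ℝ) ^ 2)
            (fun _ _ => sq_nonneg _) (Finset.mem_range.2 hl)).trans hx1
        have h2 : (|x (l + 1) - x l| : ℤ) ≤ (x (l + 1) - x l) ^ 2 := by
          rw [← sq_abs (x (l + 1) - x l)]
          have h3 := abs_nonneg (x (l + 1) - x l)
          rcases eq_or_lt_of_le h3 with h4 | h4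
          · rw [← h4]
            norm_num
          · nlinarith
        have h3 : ((|x (l + 1) - x l| : ℤ) : ℝ) ≤ ((x (l + 1) - x l : ℤ) : ℝ) ^ 2 := by
          exact_mod_cast h2
        have h4 : ((|x (l + 1) - x l| : ℤ) : ℝ) ≤ ((⌈Cd * n⌉₊ : ℤ) : ℝ) := by
          refine (h3.trans h1).trans ?_
          push_cast
          exact Nat.le_ceil _
        exact_mod_cast h4
      · have hZ : ∀ l, Z l (x (l + 1) - x l) (x l) (shiftE (s0, 0) ω) =
            if Bd l (x l) ω then L else 0 := by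
          intro l
          simp only [Z]
          rw [shift_shift]
        simp only [hZ]
        rw [Finset.sum_sub_distrib, Finset.sum_ite, Finset.sum_const, Finset.sum_const_zero,
          add_zero, nsmul_eq_mul]
        have e6 : (2 : ℝ) * 3 = 6 := by norm_num
        rw [e6]
        have h5 : (Cd + Real.log 6 + 1) * (n : ℝ) ≤
            (((Finset.range n).filter (fun l => Bd l (x l) ω)).card : ℝ) * L := by
          have h6 := mul_le_mul_of_nonneg_left hx2
            (by linarith : (0:ℝ) ≤ Cd + Real.log 6 + 1)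
          refine h6.trans (le_of_eq ?_)
          rw [hL]
          ring
        have h7 : (Real.log 6 + 1) / 1 * (n : ℝ) = (Cd + Real.log 6 + 1) * n - Cd * n := by
          ring
        rw [h7]
        linarith
    have h8 : PE q (shiftE (s0, 0) ⁻¹' {ω | ∃ x : ℕ → ℤ, x 0 = i0 ∧
          (∀ l < n, |x (l + 1) - x l| ≤ (⌈Cd * n⌉₊ : ℤ)) ∧
          (Real.log (2 * 3) + 1) / 1 * n ≤
            ∑ l ∈ Finset.range n, (Z l (x (l + 1) - x l) (x l) ω -
              ((x (l + 1) - x l : ℤ) : ℝ) ^ 2)}) ≤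
        PE q {ω | ∃ x : ℕ → ℤ, x 0 = i0 ∧
          (∀ l < n, |x (l + 1) - x l| ≤ (⌈Cd * n⌉₊ : ℤ)) ∧
          (Real.log (2 * 3) + 1) / 1 * n ≤
            ∑ l ∈ Finset.range n, (Z l (x (l + 1) - x l) (x l) ω -
              ((x (l + 1) - x l : ℤ) : ℝ) ^ 2)} := by
      have h9 := Measure.le_map_apply (μ := PE q) (mp_shiftE q (s0, 0)).measurable.aemeasurable
        {ω | ∃ x : ℕ → ℤ, x 0 = i0 ∧
          (∀ l < n, |x (l + 1) - x l| ≤ (⌈Cd * n⌉₊ : ℤ)) ∧
          (Real.log (2 * 3) + 1) / 1 * n ≤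
            ∑ l ∈ Finset.range n, (Z l (x (l + 1) - x l) (x l) ω -
              ((x (l + 1) - x l : ℤ) : ℝ) ^ 2)}
      rwa [(mp_shiftE q (s0, 0)).map_eq] at h9
    unfold Measure.real
    exact ENNReal.toReal_mono (measure_ne_top _ _) ((measure_mono hsub).trans h8)
  · intro l D x
    exact Measurable.ite (hmS l x) measurable_const measurable_const
  · intro l D x ω ω' h
    simp only [Z]
    have h1 : Bd l x (shiftE (-s0, 0) ω) = Bd l x (shiftE (-s0, 0) ω') := by
      apply hdep l x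
      rintro z ⟨hz1, hz2⟩
      unfold shiftE
      apply h
      unfold slab
      simp only [Set.mem_ofPred_eq, Prod.fst_add]
      constructor <;> linarith
    rw [h1]
  · intro l D x
    have h1 : ∀ ω, ENNReal.ofReal (Real.exp (1 * Z l D x ω)) ≤
        1 + Set.indicator {ω | Bd l x (shiftE (-s0, 0) ω)}
          (fun _ => ENNReal.ofReal (Real.exp L)) ω := by
      intro ω
      simp only [Z]
      by_cases h : Bd l x (shiftE (-s0, 0) ω)
      · rw [if_pos h, Set.indicator_of_mem (by exact h), one_mul]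
        exact le_add_self
      · rw [if_neg h, mul_zero, Real.exp_zero, ENNReal.ofReal_one]
        exact le_self_add
    refine (lintegral_mono h1).trans ?_
    rw [lintegral_add_left measurable_const, lintegral_const, measure_univ, mul_one,
      lintegral_indicator (hmS l x), lintegral_const, Measure.restrict_apply MeasurableSet.univ,
      Set.univ_inter]
    have h2 : ENNReal.ofReal (Real.exp L) * PE q {ω | Bd l x (shiftE (-s0, 0) ω)} ≤ 1 := by
      refine (mul_le_mul_right (hPS l x) _).trans ?_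
      rw [← ENNReal.ofReal_mul (Real.exp_pos _).le, ← Real.exp_add]
      simp
    calc (1 : ℝ≥0∞) + ENNReal.ofReal (Real.exp L) * PE q {ω | Bd l x (shiftE (-s0, 0) ω)}
        ≤ 1 + 1 := by gcongr
      _ = ENNReal.ofReal 2 := by
        rw [ENNReal.ofReal_ofNat]
        norm_num
  · have h1 := sum_le (⌈Cd * n⌉₊)
    have h2 : (0 : ℝ) ≤ (1 / 2 : ℝ) ^ (⌈Cd * n⌉₊) := by positivity
    linarith

end Pool.Agent.H47.NT.PEI
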