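import Pool.Agent.H84.NT.Targets3

/-!
# MP_57ddd5_pr: module SW1 (the swap in one block)
-/

open MeasureTheory ProbabilityTheory
open scoped ENNReal

namespace Pool.Agent.H47.NT.SW1

open Pool.Agent.H99.NS Pool.Agent.H22.LPP Pool.Agent.H95.INS Pool.Agent.H84.NT

theorem det (h_INL : T_INL) (h_LAM : B_LAM) {D Da : Dat} {z : Site} {J1 J2 : ℤ} {ω ω' : Env}
    {o e : Site} (hS : SwG D Da z J1 J2 ω o e) (hag : Agree D ω' ω) (hev : Ev D ω')
    (hrr : RR Da (shiftE z ω') (o - z) (e - z)) :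
    DE D J1 J2 ω' o e ∧ |Lam ω' o e 0| < D.A * D.w := by
  have hloc : Loc D Da z ω' ω o e :=
    { rel := hS.rel
      ag := hag
      en := hS.en
      ena := hS.ena
      ev := hev
      rr := hrr
      o1 := hS.lg.1
      o2 := hS.lg.2.1
      a1 := hS.a1
      a2 := hS.a2
      l1 := hS.l1
      l2 := hS.l2
      tu := hS.tu
      g1 := hS.g1
      g2 := hS.g2 }
  have hI := h_INL D Da z ω' ω o e hloc
  refine ⟨⟨?_, hI.me⟩, hI.la⟩
  have hD := hS.rel.okD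
  have hHf : 0 ≤ D.H * D.f / 1000 := by
    have h1 := hD.c2
    have h2 := hD.K0
    have h3 : (0 : ℝ) ≤ D.A := by exact_mod_cast (by have := hD.A2; omega : (0 : ℤ) ≤ D.A)
    have h4 : 0 ≤ D.K * (1 + 16 * D.A) := by positivity
    have h5 : 0 ≤ D.H := by linarith
    have h6 := hD.f0.le
    positivity
  obtain ⟨hgeo, -⟩ := h_LAM ω o e hS.en.re
  have hn1 : Near ω o e (D.H * D.f / 1000) (Lam ω o e) := by
    refine ⟨hgeo.1, ?_⟩
    rw [hgeo.2]
    linarith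
  obtain ⟨g2, hn2, hb1, hb2, ht, hne⟩ := hS.gam
  obtain ⟨G1, a1, a2, a3⟩ := hI.re (Lam ω o e) hn1 hS.l1 hS.l2 hS.tu
  obtain ⟨G2, b1, b2, b3⟩ := hI.re g2 hn2 hb1 hb2 ht
  refine ⟨G1, G2, a1, b1, ?_⟩
  intro r hr1 hr2 hr3
  have hr4 : r ≤ -(256 * D.n) ∨ 256 * D.n ≤ r := by omega
  rcases hr4 with h | h
  · rw [a2 r h, b2 r h]
    exact (hne r hr1 hr2).symm
  · rw [a3 r h, b3 r h]
    exact (hne r hr1 hr2).symm

theorem pf_SW1 (h_INL : T_INL) (h_EVP : T_EVP) (h_LAM : B_LAM) : T_SW1 := by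
  intro D Da z J1 J2 ω o e hAw hLO hS
  have hev := h_EVP D ω hS.rel.okD hAw hS.lg.2.2 hLO
  unfold Pin at hev
  have hp : pH D ≤ 1 := prob_le_one
  have hfin : pH D ^ 2 / 4 ≠ ⊤ := by
    apply ENNReal.div_ne_top _ (by norm_num)
    exact ENNReal.pow_ne_top (ne_top_of_le_ne_top ENNReal.one_ne_top hp)
  have h1 : PE D.q {ω1 | Ev D (splice (Bx D) ω1 ω)} ≤
      PE D.q {ω1 | Ev D (splice (Bx D) ω1 ω) ∧
        RR Da (shiftE z (splice (Bx D) ω1 ω)) (o - z) (e - z)} +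
      PE D.q {ω1 | ¬ RR Da (shiftE z (splice (Bx D) ω1 ω)) (o - z) (e - z)} := by
    refine le_trans (measure_mono ?_) (measure_union_le _ _)
    intro ω1 h
    by_cases hr : RR Da (shiftE z (splice (Bx D) ω1 ω)) (o - z) (e - z)
    · exact Or.inl ⟨h, hr⟩
    · exact Or.inr hr
  have h2 : pH D ^ 2 / 4 + pH D ^ 2 / 4 ≤
      PE D.q {ω1 | Ev D (splice (Bx D) ω1 ω) ∧
        RR Da (shiftE z (splice (Bx D) ω1 ω)) (o - z) (e - z)} + pH D ^ 2 / 4 := by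
    have e : pH D ^ 2 / 4 + pH D ^ 2 / 4 = pH D ^ 2 / 2 := by
      rw [← ENNReal.add_div, ← two_mul]
      have : (4 : ℝ≥0∞) = 2 * 2 := by norm_num
      rw [this, ENNReal.mul_div_mul_left _ _ (by norm_num) (by norm_num)]
    rw [e]
    exact hev.trans (h1.trans (add_le_add_right hS.rf _))
  have h3 := (ENNReal.add_le_add_iff_right hfin).1 h2
  refine h3.trans (measure_mono ?_)
  rintro ω1 ⟨h4, h5⟩
  refine det h_INL h_LAM hS ?_ h4 h5
  intro x hx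
  exact splice_of_not_mem _ _ hx

end Pool.Agent.H47.NT.SW1
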